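import Pool.Agent.Run7.h495.SV.MainC
import Pool.Agent.Run7.h824.SV.CUBE
import Pool.Agent.Run7.h459.SV.COV
import Pool.Agent.Run7.h617.SV.INF
import Pool.Agent.Run7.h774.SV.PARS
import Pool.Agent.Run7.h774.SV.DEC
import Pool.Agent.Run7.h579.SV.LOW
import Pool.Agent.Run7.h181.SV.TENT

set_option autoImplicit false
open MeasureTheory Set Filter Topology Metric Module
open scoped ENNReal RealInnerProductSpace ContDiff

namespace Pool.Agent.Results.MP_fd6526_gt.NoFiniteVolume

open Pool.Agent.Run7.h495.SV Pool.Agent.Results.MP_fd6526_gt.MeanBodyEmbeds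

/-- star body: compact, star-shaped about the origin, with positive continuous radial function
on the unit sphere -/
structure StarBody {n : ℕ} (L : Set (Eu n)) : Prop where
  compact : IsCompact L
  star : StarConvex ℝ 0 L
  pos : ∀ u : Eu n, ‖u‖ = 1 → 0 < radial L u
  cont : ContinuousOn (radial L) (sphere 0 1)

lemma body_cube (n : ℕ) : Body (cube n) := by
  obtain ⟨h1, h2, h3, _⟩ := Run7.h824.SV.t_BODY n
  exact ⟨h1, h2, ⟨0, h3⟩⟩

lemma hC : S_CUBE := Run7.h824.SV.t_CUBE
lemma hP : S_PARS :=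
  Pool.Agent.Run7.h774.SV.t_PARS (Pool.Agent.Run7.h459.SV.t_COV Pool.Agent.Run7.h181.SV.t_TENT)
lemma hD : S_DEC := Pool.Agent.Run7.h774.SV.t_DEC
lemma hI : S_INF := Pool.Agent.Run7.h617.SV.t_INF Pool.Agent.Run7.h579.SV.t_LOW

/-- **Q2 of MP_fd6526: the answer is no.** For every `n ≥ 3` and `p ∈ (-1, 0)` and the cube
`K = [-1,1]^n`: the distribution `Γ(p/2) (ρ_{R_pK}^p)^` is given away from the origin by a
nonnegative function, but every star-shaped set whose radial function is the restriction of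
this function to the sphere has infinite volume; in particular it is no star body. -/
theorem result (n : ℕ) (hn : 3 ≤ n) (p : ℝ) (hp : -1 < p) (hp0 : p < 0) :
    Body (cube n) ∧
    (∃ F : Eu n → ℝ, (∀ ξ, 0 ≤ F ξ) ∧ GivenBy (cube n) p F) ∧
    (∀ L : Set (Eu n), StarConvex ℝ 0 L → GivenBy (cube n) p (homog n p L) → volume L = ⊤) ∧
    (∀ L : Set (Eu n), StarBody L → ¬ GivenBy (cube n) p (homog n p L)) := by
  have hB := body_cube n
  have hn1 : 1 ≤ n := by omega
  refine ⟨hB, ⟨_, fun ξ => mul_nonneg (cc_pos hB hp hp0).le ENNReal.toReal_nonneg,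
    given hC hB hD hP hn1 hp hp0⟩, fun L hL hF => vol hC hB hD hP hI hn hp hp0 hL hF,
    fun L hL hF => ?_⟩
  exact hL.compact.measure_lt_top.ne (vol hC hB hD hP hI hn hp hp0 hL.star hF)

end Pool.Agent.Results.MP_fd6526_gt.NoFiniteVolume
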